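import Pool.Agent.K9h3.KH.D

/-!
# Brody curves in the complement of two transversal sections of a complete intersection surface

Let `S` be a smooth complete intersection surface in the complex projective space of dimension
`s + 2` (`s = 0`: the projective plane), cut out by forms `R i` of degrees `d i ≥ 1`, and let
`P = 0`, `Q = 0` be hypersurfaces of degrees `a, b ≥ 1` with `s + 4 ≤ a + b + ∑ d i` which cut out
smooth curves in `S` meeting transversally. Every nonconstant entire curve `f` of bounded speed in
the complement `X` of these curves in `S` is the composition of an entire function `u` and a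
nonconstant algebraic map `ψ` from the punctured line to `X` (from the line to `X` if `u` has
zeros), and `u z = exp (c z)` if `f` does not lie in a member `Q ^ a = c P ^ b` of the pencil. The
case `s = 0` and the method of this second part are due to helper3 (`K9h3/TC`), its extension to
complete intersections to helper84 (`K9h84/CI`).
-/

set_option autoImplicit false

namespace Pool.Agent.Results.MP_160ed4_ag.BrodyFactorization

open Pool.Agent.K9h84.CI

/-- every nonconstant Brody curve in the complement of two smooth transversal sections of a smooth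
complete intersection surface, with ample log canonical bundle, factors through an algebraic map
from the punctured line -/
theorem result {s : ℕ} {R : Fin s → MvPolynomial (Fin (s + 3)) ℂ}
    {P Q : MvPolynomial (Fin (s + 3)) ℂ} {d : Fin s → ℕ} {a b : ℕ} (ha : 1 ≤ a) (hb : 1 ≤ b)
    (hab : s + 4 ≤ a + b + ∑ i, d i) (h : SmoothPair R P Q d a b) {f : ℂ → Fin (s + 3) → ℂ}
    (hf : CurveIn R P Q f) (hB : BoundedSpeed f) (hnc : Nonconst f) :
    ∃ (ψ : Fin (s + 3) → Polynomial ℂ) (u g : ℂ → ℂ),
      (∀ t : ℂ, t ≠ 0 → (∀ i, MvPolynomial.eval (fun i => (ψ i).eval t) (R i) = 0) ∧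
        MvPolynomial.eval (fun i => (ψ i).eval t) P ≠ 0 ∧
        MvPolynomial.eval (fun i => (ψ i).eval t) Q ≠ 0) ∧
      (∃ (t' t : ℂ) (i j : Fin (s + 3)), t' ≠ 0 ∧ t ≠ 0 ∧
        (ψ i).eval t' * (ψ j).eval t ≠ (ψ j).eval t' * (ψ i).eval t) ∧
      Differentiable ℂ u ∧ Differentiable ℂ g ∧ (∀ z, g z ≠ 0) ∧
      (∀ z i, g z * f z i = (ψ i).eval (u z)) ∧
      ((∃ c : ℂ, c ≠ 0 ∧
          ∀ z, MvPolynomial.eval (f z) Q ^ a = c * MvPolynomial.eval (f z) P ^ b) ∨
        ∃ c : ℂ, c ≠ 0 ∧ ∀ z, u z = Complex.exp (c * z)) :=
  Pool.Agent.K9h3.KH.brody_alg ha hb hab h hf hB hnc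

end Pool.Agent.Results.MP_160ed4_ag.BrodyFactorization
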