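import Pool.Agent.K9h93.EN.MainS
import Pool.Agent.K9h93.EP.MainY

/-!
# Holomorphic curves in surfaces of general type with stable fibres over an elliptic curve

`X` is a compact complex surface of general type with a holomorphic map `α` to the elliptic curve
`ℂ / (ℤ w₁ + ℤ w₂)`. The fibres may contain rational and elliptic curves; it is only assumed
(`StableFibres`) that every nonconstant entire curve with bounded derivative in a fibre meets
another branch of the fibre for at least two values of the parameter, as it is the case for stable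
curves. `PerSec α` is the set of the doubly periodic holomorphic `e : ℂ → X` which are sections of
`α` over `ℂ`; their images are elliptic curves. The theorem says:

* `PerSec α` is finite;
* there are finitely many fibres such that every nonconstant entire curve `f` in `X` lies in one of
  them or is `e ∘ h` with `e ∈ PerSec α` and an entire function `h`: so all nonconstant entire
  curves lie in finitely many fibres and finitely many elliptic curves, the strong form of the
  Green-Griffiths-Lang conjecture for `X`;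
* a holomorphic map of the unit disc to `X` with a large derivative in the direction of the base
  comes close to all the points of an elliptic curve `e(ℂ)`, `e ∈ PerSec α`;
* if `PerSec α` is empty, that is if `X` contains no elliptic curves which are mapped onto the
  base, then all holomorphic maps of the punctured disc extend or lie in a fibre, and `X` is
  Kobayashi hyperbolic at all the points outside of the finitely many fibres above.
-/

set_option autoImplicit false

open Set Metric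
open scoped Manifold ContDiff
open Pool.Agent.K9h93.EL

namespace Pool.Agent.Results.MP_160ed4_ag.IrregularSurfaces

/-- Holomorphic curves in surfaces of general type with stable fibres over an elliptic curve. -/
theorem result {X : Type} [MetricSpace X] [CompactSpace X] [ChartedSpace (Fin 2 → ℂ) X]
    [IsManifold 𝓘(ℂ, Fin 2 → ℂ) 1 X] {w₁ w₂ : ℂ} (hw : LinearIndependent ℝ ![w₁, w₂])
    (α : X → ℂ ⧸ lattice w₁ w₂) (hα : HolTorus (lattice w₁ w₂) α) (hG : GeneralType α)
    (hst : StableFibres α) :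
    (PerSec α).Finite ∧
    (∀ κ : ℝ, 0 < κ → ∃ C : ℝ, ∀ (f : ℂ → X) (h : ℂ → ℂ),
      MDifferentiableOn 𝓘(ℂ) 𝓘(ℂ, Fin 2 → ℂ) f (ball 0 1) → DifferentiableOn ℂ h (ball 0 1) →
      (∀ z ∈ ball (0 : ℂ) 1, α (f z) = (h z : ℂ ⧸ lattice w₁ w₂)) → C ≤ ‖deriv h 0‖ →
      ∃ e ∈ PerSec α, ∀ w, ∃ z ∈ ball (0 : ℂ) 1, dist (f z) (e w) ≤ κ) ∧
    ∃ F : Set (ℂ ⧸ lattice w₁ w₂), F.Finite ∧
      (∀ f : ℂ → X, Entire f →
        (∀ z, f z = f 0) ∨ (∃ w ∈ F, ∀ z, α (f z) = w) ∨
          ∃ e ∈ PerSec α, ∃ h : ℂ → ℂ, Differentiable ℂ h ∧ ∀ z, f z = e (h z)) ∧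
      (PerSec α = ∅ →
        (∀ f : ℂ → X, MDifferentiableOn 𝓘(ℂ) 𝓘(ℂ, Fin 2 → ℂ) f (ball 0 1 \ {0}) →
          (∃ G : ℂ → X, MDifferentiableOn 𝓘(ℂ) 𝓘(ℂ, Fin 2 → ℂ) G (ball 0 1) ∧
            EqOn G f (ball 0 1 \ {0})) ∨
          ∀ z ∈ ball (0 : ℂ) 1 \ {0}, ∀ z' ∈ ball (0 : ℂ) 1 \ {0}, α (f z) = α (f z')) ∧
        ∀ x₀ : X, α x₀ ∉ F → ∀ η : ℝ, 0 < η → ∃ ρ : ℝ, 0 < ρ ∧ ∀ f : ℂ → X,
          MDifferentiableOn 𝓘(ℂ) 𝓘(ℂ, Fin 2 → ℂ) f (ball 0 1) → dist (f 0) x₀ < ρ →
            ∀ z : ℂ, ‖z‖ < ρ → dist (f z) (f 0) ≤ η) := by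
  have hT2 := lattice_t2 hw
  obtain ⟨δ, N⟩ := exists_NrmI hα.cont (lattice_disc hw) hst
  refine ⟨perSec_finite hw hα N hG, fun κ hκ => ?_, BadVal α,
    badVal_finite hα.cont (lattice_disc hw) hst, fun f hf => main_ggl hw hα hG hst hf,
    fun h0 => ⟨fun f hf => ?_, fun x₀ hx₀ η hη => ?_⟩⟩
  · obtain ⟨C, hC⟩ := large_disc Pool.Agent.K9h93.EN.bloch_main hw hα N hG hκ
    exact ⟨C, fun f h hf hh hfh hd => hC f h (holOn_of_mdiff isOpen_ball hf) hh hfh hd⟩
  · have hopen : IsOpen (ball (0 : ℂ) 1 \ {0}) := isOpen_ball.sdiff isClosed_singleton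
    rcases Pool.Agent.K9h93.EN.punStab_main Pool.Agent.K9h93.EN.cross_main X _ α hα
      (lattice_disc hw) hst (liftBound hw hα hG hst h0) f (holOn_of_mdiff hopen hf) with
      ⟨F, hF, hFf⟩ | h1
    · exact Or.inl ⟨F, mdiff_of_holOn isOpen_ball hF, hFf⟩
    · exact Or.inr h1
  · obtain ⟨ρ, hρ, h1⟩ := Pool.Agent.K9h93.EN.hypGood_main X _ α hα (lattice_disc hw)
      (liftBound hw hα hG hst h0) x₀ (fun g hg hu hgx z => by
        by_contra hne
        exact hx₀ ⟨g, hg, hu, hgx, z, hne⟩) η hη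
    exact ⟨ρ, hρ, fun f hf hd => h1 f (holOn_of_mdiff isOpen_ball hf) hd⟩

end Pool.Agent.Results.MP_160ed4_ag.IrregularSurfaces
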