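import Pool.Agent.K9h3.KH.D

/-!
# Curves in the complement of two transversal sections of a complete intersection surface

Let `S` be a smooth complete intersection surface in the complex projective space of dimension
`s + 2` (`s = 0`: the projective plane), cut out by forms `R i` of degrees `d i ≥ 1`, and let
`P = 0`, `Q = 0` be hypersurfaces of degrees `a, b` with `s + 4 ≤ a + b + ∑ d i` (that is: `K_S + D`
is ample) which cut out smooth curves in `S` meeting transversally. Let `X` be the complement in `S`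
of the two curves. Suppose that `a, b ≥ 3`, or that `a, b ≥ 2` and one of them is odd, or, for
arbitrary `a, b ≥ 1`, that the algebraic maps from the punctured line to `X` whose image is in a
member `Q ^ a = c P ^ b` of the pencil are constant. There are finitely many nonconstant algebraic
maps `φ j : ℂ* → X` and a form `G` which does not vanish identically on `S` but vanishes on their
images such that

* every nonconstant entire curve in `X` is of the form `φ j ∘ exp ∘ H` with an entire function `H`;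
* every holomorphic map from the punctured disc to `X` either extends holomorphically over the
  puncture as a map to projective space, or is `φ j ∘ u` after a substitution `z ↦ z ^ m`, with a
  nowhere vanishing holomorphic function `u` on the punctured disc;
* all these curves, and all nonconstant holomorphic maps `ℂ ^ m → X`, lie in `G = 0`.

The case `s = 0` and the method are due to helper3 (`K9h3/TC`); the leaves on logarithms and
removable singularities (`K9h21/PD`) are due to helper21, the growth dichotomy (`K9h39/GB`) to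
helper39, the extension of the whole chain to complete intersection surfaces (`K9h84/CI`) to
helper84; the algebraic form of the condition on the members of the pencil is new (`K9h3/KH`).
-/

set_option autoImplicit false

namespace Pool.Agent.Results.MP_160ed4_ag.PairsFiveConditions

open Pool.Agent.K9h84.CI

/-- the algebraic maps from the punctured line to the members `Q ^ a = c P ^ b` of the pencil in the
complement of the two curves are constant -/
def AlgFibresRigid {s : ℕ} (R : Fin s → MvPolynomial (Fin (s + 3)) ℂ)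
    (P Q : MvPolynomial (Fin (s + 3)) ℂ) (a b : ℕ) : Prop :=
  ∀ ψ : Fin (s + 3) → Polynomial ℂ,
    (∀ t : ℂ, t ≠ 0 → (∀ i, MvPolynomial.eval (fun i => (ψ i).eval t) (R i) = 0) ∧
      MvPolynomial.eval (fun i => (ψ i).eval t) P ≠ 0 ∧
      MvPolynomial.eval (fun i => (ψ i).eval t) Q ≠ 0) →
    (∃ c : ℂ, c ≠ 0 ∧ ∀ t : ℂ, t ≠ 0 → MvPolynomial.eval (fun i => (ψ i).eval t) Q ^ a =
      c * MvPolynomial.eval (fun i => (ψ i).eval t) P ^ b) →
    ∀ (t' t : ℂ) (i j : Fin (s + 3)), t' ≠ 0 → t ≠ 0 →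
      (ψ i).eval t' * (ψ j).eval t = (ψ j).eval t' * (ψ i).eval t

/-- structure theorem for all entire curves and all punctured discs in the complement of two smooth
transversal sections of a smooth complete intersection surface -/
theorem result {s : ℕ} {R : Fin s → MvPolynomial (Fin (s + 3)) ℂ}
    {P Q : MvPolynomial (Fin (s + 3)) ℂ} {d : Fin s → ℕ} {a b : ℕ} (ha : 1 ≤ a) (hb : 1 ≤ b)
    (hab : s + 4 ≤ a + b + ∑ i, d i) (h : SmoothPair R P Q d a b)
    (hr : (3 ≤ a ∧ 3 ≤ b) ∨ (2 ≤ a ∧ 2 ≤ b ∧ (Odd a ∨ Odd b)) ∨ AlgFibresRigid R P Q a b) :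
    ∃ (n N : ℕ) (G : MvPolynomial (Fin (s + 3)) ℂ) (φ : Fin N → Fin (s + 3) → Polynomial ℂ),
      G.IsHomogeneous n ∧
      (∃ x : Fin (s + 3) → ℂ, x ≠ 0 ∧ (∀ i, MvPolynomial.eval x (R i) = 0) ∧
        MvPolynomial.eval x G ≠ 0) ∧
      (∀ j, (∀ t : ℂ, t ≠ 0 → (∀ i, MvPolynomial.eval (fun i => (φ j i).eval t) (R i) = 0) ∧
          MvPolynomial.eval (fun i => (φ j i).eval t) P ≠ 0 ∧
          MvPolynomial.eval (fun i => (φ j i).eval t) Q ≠ 0 ∧
          MvPolynomial.eval (fun i => (φ j i).eval t) G = 0) ∧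
        ∃ (t t' : ℂ) (i i' : Fin (s + 3)), t ≠ 0 ∧ t' ≠ 0 ∧
          (φ j i).eval t * (φ j i').eval t' ≠ (φ j i').eval t * (φ j i).eval t') ∧
      (∀ f : ℂ → Fin (s + 3) → ℂ, CurveIn R P Q f → Nonconst f →
        (∃ (j : Fin N) (g H : ℂ → ℂ), Differentiable ℂ g ∧ (∀ z, g z ≠ 0) ∧ Differentiable ℂ H ∧
          ∀ z i, g z * f z i = (φ j i).eval (Complex.exp (H z))) ∧
        ∀ z, MvPolynomial.eval (f z) G = 0) ∧
      (∀ f : ℂ → Fin (s + 3) → ℂ, PuncturedCurveIn R P Q f → ExtendsAtZero f ∨
        ((∃ (j : Fin N) (m : ℕ) (u : ℂ → ℂ), 1 ≤ m ∧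
            DifferentiableOn ℂ u {z : ℂ | 0 < ‖z‖ ∧ ‖z‖ < 1} ∧
            ∀ z : ℂ, 0 < ‖z‖ → ‖z‖ < 1 → u z ≠ 0 ∧ ∃ c : ℂ, c ≠ 0 ∧
              ∀ i, c * f (z ^ m) i = (φ j i).eval (u z)) ∧
          ∀ z : ℂ, 0 < ‖z‖ → ‖z‖ < 1 → MvPolynomial.eval (f z) G = 0)) ∧
      ∀ (m : ℕ) (f : (Fin m → ℂ) → Fin (s + 3) → ℂ), Differentiable ℂ f →
        (∀ z, (∀ i, MvPolynomial.eval (f z) (R i) = 0) ∧ MvPolynomial.eval (f z) P ≠ 0 ∧
          MvPolynomial.eval (f z) Q ≠ 0) →
        (∃ z w i i', f z i * f w i' ≠ f z i' * f w i) → ∀ z, MvPolynomial.eval (f z) G = 0 := by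
  refine all_curves2 ha hb hab h ?_
  rcases hr with ⟨h1, h2⟩ | ⟨h1, h2, h3 | h3⟩ | hr
  · exact Or.inl ⟨by omega, by omega, Or.inl ⟨h1, h2⟩⟩
  · exact Or.inl ⟨h1, h2, Or.inr (Or.inl h3)⟩
  · exact Or.inl ⟨h1, h2, Or.inr (Or.inr (Or.inl h3))⟩
  · exact Or.inr (Pool.Agent.K9h3.KH.fibres_rigid' ha hb hab h hr)

end Pool.Agent.Results.MP_160ed4_ag.PairsFiveConditions
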