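import Pool.Agent.K9h3.KH.F

/-!
# Hyperbolicity of the complement of two transversal sections of a complete intersection surface

Let `S` be a smooth complete intersection surface in the complex projective space of dimension
`s + 2` (`s = 0`: the projective plane), cut out by forms `R i` of degrees `d i ≥ 1`, and let
`P = 0`, `Q = 0` be hypersurfaces of degrees `a, b ≥ 1` with `s + 4 ≤ a + b + ∑ d i` (that is:
`K_S + D` is ample) which cut out smooth curves in `S` meeting transversally. For the complement `X`
of the two curves in `S` the following are equivalent: `X` is hyperbolically embedded in the
projective space; all entire curves in `X` are constant; all holomorphic maps from the punctured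
disc to `X` extend over the puncture; all algebraic maps from the punctured line to `X` are
constant.

The proof of the implication from the last to the first condition uses the criterion of helper84
and helper3 (`K9h84/CI`), and for the members of the pencil of `P ^ b`, `Q ^ a` the starting files
on curves of bounded derivative in open algebraic curves (`N155`), on function fields of one
variable with at most two places at infinity (`TH143/LG`) and on curves of logarithmic general type
(`Q96/LS`).
-/

set_option autoImplicit false

namespace Pool.Agent.Results.MP_160ed4_ag.PairsHyperbolicity

open Pool.Agent.K9h84.CI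

/-- hyperbolic embeddedness, hyperbolicity in the sense of Brody, the big Picard property and the
rigidity of the algebraic maps from the punctured line are equivalent -/
theorem result {s : ℕ} {R : Fin s → MvPolynomial (Fin (s + 3)) ℂ}
    {P Q : MvPolynomial (Fin (s + 3)) ℂ} {d : Fin s → ℕ} {a b : ℕ} (ha : 1 ≤ a) (hb : 1 ≤ b)
    (hab : s + 4 ≤ a + b + ∑ i, d i) (h : SmoothPair R P Q d a b) :
    List.TFAE [AlgRigid R P Q, HypEmbedded R P Q,
      ∀ f : ℂ → Fin (s + 3) → ℂ, CurveIn R P Q f → ¬ Nonconst f,
      ∀ f : ℂ → Fin (s + 3) → ℂ, PuncturedCurveIn R P Q f → ExtendsAtZero f] :=
  Pool.Agent.K9h3.KH.equiv ha hb hab h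

end Pool.Agent.Results.MP_160ed4_ag.PairsHyperbolicity
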